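import Mathlib

/-!
Disjoint bichromatic pairs and their sums (`MP_98699e_co`, `DiameterThree`).
-/

set_option autoImplicit false

namespace Pool.Agent.Helper99.D3

open Finset
open scoped Pointwise

/-- Cauchy and Davenport, one step. -/
theorem cd_step {p : ℕ} (hp : p.Prime) (R T : Finset (ZMod p)) (n k : ℕ)
    (hR : min p n ≤ R.card) (hn : 1 ≤ n) (hT : k ≤ T.card) (hk : 1 ≤ k) :
    min p (n + k - 1) ≤ (R + T).card := by
  have hp0 := hp.pos
  have h1 : R.Nonempty := card_pos.mp (by omega)
  have h2 : T.Nonempty := card_pos.mp (by omega)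
  have h3 := ZMod.cauchy_davenport hp h1 h2
  omega

section

variable {V C : Type} [DecidableEq V] [DecidableEq C]

/-- A colour class after the removal of two elements. -/
theorem cls_le_of (f : V → C) (n : ℕ) (S : Finset V) (x x' : V) (k : C)
    (hc : (S.filter (fun z => f z = k)).card ≤ n + 1)
    (h : (x ∈ S ∧ f x = k) ∨ (x' ∈ S ∧ f x' = k) ∨ (S.filter (fun z => f z = k)).card ≤ n) :
    (((S.erase x).erase x').filter (fun z => f z = k)).card ≤ n := by
  rcases h with ⟨hx, hk⟩ | ⟨hx, hk⟩ | h
  · have h1 : ((S.erase x).erase x').filter (fun z => f z = k) ⊆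
        (S.filter (fun z => f z = k)).erase x := by
      intro z hz
      simp only [mem_filter, mem_erase] at hz ⊢
      tauto
    have h2 := card_le_card h1
    rw [card_erase_of_mem (mem_filter.mpr ⟨hx, hk⟩)] at h2
    omega
  · have h1 : ((S.erase x).erase x').filter (fun z => f z = k) ⊆
        (S.filter (fun z => f z = k)).erase x' := by
      intro z hz
      simp only [mem_filter, mem_erase] at hz ⊢
      tauto
    have h2 := card_le_card h1
    rw [card_erase_of_mem (mem_filter.mpr ⟨hx, hk⟩)] at h2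
    omega
  · have h1 : ((S.erase x).erase x').filter (fun z => f z = k) ⊆
        S.filter (fun z => f z = k) := by
      intro z hz
      simp only [mem_filter, mem_erase] at hz ⊢
      tauto
    exact (card_le_card h1).trans h

/-- A balanced set stays balanced after the removal of a suitable pair through `x`. -/
theorem half_pair (f : V → C) (n : ℕ) (S : Finset V) (hS : S.card = 2 * (n + 1))
    (hc : ∀ k, (S.filter (fun z => f z = k)).card ≤ n + 1) (x : V) (hx : x ∈ S) :
    ∃ x' ∈ S, f x' ≠ f x ∧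
      ∀ k, (((S.erase x).erase x').filter (fun z => f z = k)).card ≤ n := by
  by_cases h : ∃ κ, κ ≠ f x ∧ (S.filter (fun z => f z = κ)).card = n + 1
  · obtain ⟨κ, hκ, hκc⟩ := h
    obtain ⟨x', hx'⟩ : (S.filter (fun z => f z = κ)).Nonempty := card_pos.mp (by omega)
    obtain ⟨hx'S, hx'κ⟩ := mem_filter.mp hx'
    refine ⟨x', hx'S, by rw [hx'κ]; exact hκ, fun k => ?_⟩
    apply cls_le_of f n S x x' k (hc k)
    by_cases h1 : f x = k
    · exact Or.inl ⟨hx, h1⟩
    by_cases h2 : f x' = k
    · exact Or.inr (Or.inl ⟨hx'S, h2⟩)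
    · right
      right
      have h3 : Disjoint (S.filter (fun z => f z = k)) (S.filter (fun z => f z = κ)) := by
        rw [disjoint_left]
        intro z hz hz'
        have h4 := (mem_filter.mp hz).2
        have h5 := (mem_filter.mp hz').2
        exact h2 (by rw [hx'κ, ← h5, h4])
      have h4 : S.filter (fun z => f z = k) ∪ S.filter (fun z => f z = κ) ⊆ S.erase x := by
        intro z hz
        rw [mem_union, mem_filter, mem_filter] at hz
        rw [mem_erase]
        refine ⟨?_, by tauto⟩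
        rintro rfl
        rcases hz with hz | hz
        · exact h1 hz.2
        · exact hκ hz.2.symm
      have h5 := card_le_card h4
      rw [card_union_of_disjoint h3, card_erase_of_mem hx, hκc, hS] at h5
      omega
  · have h1 : ∃ x' ∈ S, f x' ≠ f x := by
      by_contra h2
      have h3 : S.filter (fun z => f z = f x) = S := by
        apply filter_true_of_mem
        intro z hz
        by_contra h4
        exact h2 ⟨z, hz, h4⟩
      have h4 := hc (f x)
      rw [h3, hS] at h4
      omega
    obtain ⟨x', hx'S, hx'⟩ := h1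
    refine ⟨x', hx'S, hx', fun k => ?_⟩
    apply cls_le_of f n S x x' k (hc k)
    by_cases h1 : f x = k
    · exact Or.inl ⟨hx, h1⟩
    · right
      right
      have h2 : (S.filter (fun z => f z = k)).card ≠ n + 1 := by
        intro h3
        exact h ⟨k, fun h4 => h1 h4.symm, h3⟩
      have h3 := hc k
      omega

/-- Admissible pairs. -/
theorem adm (g : V → C) (a b : ℕ) (ha : 1 ≤ a) (N : Finset V) (hN : 2 * (a + (b + 1)) ≤ N.card)
    (hg : ∀ d, b + 1 ≤ (N.filter (fun z => g z ≠ d)).card) :
    ∃ d, (∃ y ∈ N, g y = d) ∧ (∃ y ∈ N, g y ≠ d) ∧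
      ∀ y ∈ N, ∀ y' ∈ N, g y = d → g y' ≠ d →
        ∀ e, b ≤ (((N.erase y).erase y').filter (fun z => g z ≠ e)).card := by
  have hE : ∀ (y y' : V) (e : C), (N.filter (fun z => g z ≠ e)).card ≤
      (((N.erase y).erase y').filter (fun z => g z ≠ e)).card + 2 := by
    intro y y' e
    have h1 : N.filter (fun z => g z ≠ e) ⊆
        ((N.erase y).erase y').filter (fun z => g z ≠ e) ∪ {y, y'} := by
      intro z hz
      simp only [mem_union, mem_filter, mem_erase, mem_insert, mem_singleton] at hz ⊢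
      tauto
    exact (card_le_card h1).trans ((card_union_le _ _).trans
      (Nat.add_le_add_left (card_le_two) _))
  by_cases h : ∃ d, (N.filter (fun z => g z ≠ d)).card = b + 1
  · obtain ⟨d, hd⟩ := h
    have hsplit := card_filter_add_card_filter_not (s := N) (fun z => g z = d)
    have h0 : (N.filter (fun z => ¬ g z = d)).card = b + 1 := hd
    refine ⟨d, ?_, ?_, ?_⟩
    · obtain ⟨y, hy⟩ : (N.filter (fun z => g z = d)).Nonempty := card_pos.mp (by omega)
      exact ⟨y, (mem_filter.mp hy).1, (mem_filter.mp hy).2⟩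
    · obtain ⟨y, hy⟩ : (N.filter (fun z => g z ≠ d)).Nonempty := card_pos.mp (by omega)
      exact ⟨y, (mem_filter.mp hy).1, (mem_filter.mp hy).2⟩
    · intro y hy y' hy' hyd hyd' e
      by_cases he : e = d
      · subst he
        have h1 : (N.filter (fun z => g z ≠ e)).erase y' ⊆
            ((N.erase y).erase y').filter (fun z => g z ≠ e) := by
          intro z hz
          simp only [mem_filter, mem_erase] at hz ⊢
          refine ⟨⟨hz.1, ?_, hz.2.1⟩, hz.2.2⟩
          rintro rfl
          exact hz.2.2 hyd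
        have h2 := card_le_card h1
        have h3 := pred_card_le_card_erase (s := N.filter (fun z => g z ≠ e)) (a := y')
        omega
      · have h1 : N.filter (fun z => g z = d) ⊆ N.filter (fun z => g z ≠ e) := by
          intro z hz
          rw [mem_filter] at hz ⊢
          refine ⟨hz.1, ?_⟩
          rw [hz.2]
          exact fun h => he h.symm
        have h2 := card_le_card h1
        have h3 := hE y y' e
        omega
  · obtain ⟨y0, hy0⟩ : N.Nonempty := card_pos.mp (by omega)
    refine ⟨g y0, ⟨y0, hy0, rfl⟩, ?_, ?_⟩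
    · obtain ⟨y, hy⟩ : (N.filter (fun z => g z ≠ g y0)).Nonempty :=
        card_pos.mp (by have := hg (g y0); omega)
      exact ⟨y, (mem_filter.mp hy).1, (mem_filter.mp hy).2⟩
    · intro y hy y' hy' hyd hyd' e
      have h1 := hE y y' e
      have h2 := hg e
      have h3 : (N.filter (fun z => g z ≠ e)).card ≠ b + 1 := fun h4 => h ⟨e, h4⟩
      omega

/-- The step. -/
theorem step (f g : V → C) (a b : ℕ) (ha : 1 ≤ a) (N S : Finset V)
    (hN : 2 * (a + (b + 1)) ≤ N.card) (hS : S.card = 2 * (a + (b + 1)))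
    (hf : ∀ k, (S.filter (fun z => f z = k)).card ≤ a + (b + 1))
    (hg : ∀ d, b + 1 ≤ (N.filter (fun z => g z ≠ d)).card) :
    ∃ y ∈ N, ∃ y' ∈ N, g y ≠ g y' ∧
      (∀ e, b ≤ (((N.erase y).erase y').filter (fun z => g z ≠ e)).card) ∧
      ∃ x ∈ S, ∃ x' ∈ S, x ≠ x' ∧ (y ∈ S → y = x ∨ y = x') ∧ (y' ∈ S → y' = x ∨ y' = x') ∧
        ∀ k, (((S.erase x).erase x').filter (fun z => f z = k)).card ≤ a + b := by
  obtain ⟨d, ⟨y0, hy0, hyd0⟩, ⟨z0, hz0, hzd0⟩, hadm⟩ := adm g a b ha N hN hg
  have hS' : S.card = 2 * ((a + b) + 1) := by omega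
  have hf' : ∀ k, (S.filter (fun z => f z = k)).card ≤ (a + b) + 1 := fun k => by
    have := hf k
    omega
  by_cases h1 : ∃ y ∈ N, y ∉ S
  · -- a crossing pair one element of which is outside `S`
    have h2 : ∃ y ∈ N, ∃ y' ∈ N, g y = d ∧ g y' ≠ d ∧ (y ∉ S ∨ y' ∉ S) := by
      obtain ⟨y, hy, hyS⟩ := h1
      by_cases h3 : g y = d
      · exact ⟨y, hy, z0, hz0, h3, hzd0, Or.inl hyS⟩
      · exact ⟨y0, hy0, y, hy, hyd0, h3, Or.inr hyS⟩
    obtain ⟨y, hy, y', hy', hyd, hyd', hout⟩ := h2
    refine ⟨y, hy, y', hy', by rw [hyd]; exact fun h => hyd' h.symm,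
      hadm y hy y' hy' hyd hyd', ?_⟩
    obtain ⟨x, hx, hxy, hxy'⟩ : ∃ x ∈ S, (y ∈ S → y = x) ∧ (y' ∈ S → y' = x) := by
      by_cases h3 : y ∈ S
      · refine ⟨y, h3, fun _ => rfl, fun h4 => ?_⟩
        rcases hout with h5 | h5
        · exact absurd h3 h5
        · exact absurd h4 h5
      by_cases h4 : y' ∈ S
      · exact ⟨y', h4, fun h5 => absurd h5 h3, fun _ => rfl⟩
      · obtain ⟨x, hx⟩ : S.Nonempty := card_pos.mp (by omega)
        exact ⟨x, hx, fun h5 => absurd h5 h3, fun h5 => absurd h5 h4⟩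
    obtain ⟨x', hx', hxx', hbal⟩ := half_pair f (a + b) S hS' hf' x hx
    refine ⟨x, hx, x', hx', fun h => hxx' (by rw [h]), fun h => Or.inl (hxy h),
      fun h => Or.inl (hxy' h), hbal⟩
  · have hNS : N ⊆ S := by
      intro y hy
      by_contra h2
      exact h1 ⟨y, hy, h2⟩
    have hEq : N = S := eq_of_subset_of_card_le hNS (by omega)
    by_cases h2 : ∃ κ, (S.filter (fun z => f z = κ)).card = (a + b) + 1
    · obtain ⟨κ, hκ⟩ := h2
      have h3 : ∃ y ∈ N, ∃ y' ∈ N, g y = d ∧ g y' ≠ d ∧
          ((f y = κ ∧ f y' ≠ κ) ∨ (f y ≠ κ ∧ f y' = κ)) := by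
        by_contra h4
        have h5 : ∀ y ∈ N, ∀ y' ∈ N, g y = d → g y' ≠ d → (f y = κ ↔ f y' = κ) := by
          intro y hy y' hy' hyd hyd'
          by_contra h6
          apply h4
          refine ⟨y, hy, y', hy', hyd, hyd', ?_⟩
          tauto
        have h6 : ∀ y ∈ N, (f y = κ ↔ f y0 = κ) := by
          intro y hy
          by_cases h7 : g y = d
          · rw [h5 y hy z0 hz0 h7 hzd0, h5 y0 hy0 z0 hz0 hyd0 hzd0]
          · rw [h5 y0 hy0 y hy hyd0 h7]
        have hsplit := card_filter_add_card_filter_not (s := S) (fun z => f z = κ)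
        by_cases h7 : f y0 = κ
        · obtain ⟨z, hz⟩ : (S.filter (fun z => ¬ f z = κ)).Nonempty := card_pos.mp (by omega)
          obtain ⟨hzS, hzk⟩ := mem_filter.mp hz
          rw [← hEq] at hzS
          exact hzk ((h6 z hzS).mpr h7)
        · obtain ⟨z, hz⟩ : (S.filter (fun z => f z = κ)).Nonempty := card_pos.mp (by omega)
          obtain ⟨hzS, hzk⟩ := mem_filter.mp hz
          rw [← hEq] at hzS
          exact h7 ((h6 z hzS).mp hzk)
      obtain ⟨y, hy, y', hy', hyd, hyd', hcross⟩ := h3
      refine ⟨y, hy, y', hy', by rw [hyd]; exact fun h => hyd' h.symm,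
        hadm y hy y' hy' hyd hyd', y, hNS hy, y', hNS hy', ?_, fun _ => Or.inl rfl,
        fun _ => Or.inr rfl, fun k => ?_⟩
      · rintro rfl
        exact hyd' hyd
      · apply cls_le_of f (a + b) S y y' k (hf' k)
        by_cases hk1 : f y = k
        · exact Or.inl ⟨hNS hy, hk1⟩
        by_cases hk2 : f y' = k
        · exact Or.inr (Or.inl ⟨hNS hy', hk2⟩)
        right
        right
        -- the class `k` and the class `κ` are disjoint and miss `y` or `y'`
        have hkκ : k ≠ κ := by
          rintro rfl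
          tauto
        have h8 : Disjoint (S.filter (fun z => f z = k)) (S.filter (fun z => f z = κ)) := by
          rw [disjoint_left]
          intro z hz hz'
          exact hkκ ((mem_filter.mp hz).2.symm.trans (mem_filter.mp hz').2)
        obtain ⟨w, hwS, hwk, hwκ⟩ : ∃ w ∈ S, f w ≠ k ∧ f w ≠ κ := by
          rcases hcross with h9 | h9
          · exact ⟨y', hNS hy', hk2, h9.2⟩
          · exact ⟨y, hNS hy, hk1, h9.1⟩
        have h9 : S.filter (fun z => f z = k) ∪ S.filter (fun z => f z = κ) ⊆ S.erase w := by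
          intro z hz
          rw [mem_union, mem_filter, mem_filter] at hz
          rw [mem_erase]
          refine ⟨?_, by tauto⟩
          rintro rfl
          rcases hz with hz | hz
          · exact hwk hz.2
          · exact hwκ hz.2
        have h10 := card_le_card h9
        rw [card_union_of_disjoint h8, card_erase_of_mem hwS, hκ, hS'] at h10
        omega
    · refine ⟨y0, hy0, z0, hz0, by rw [hyd0]; exact fun h => hzd0 h.symm,
        hadm y0 hy0 z0 hz0 hyd0 hzd0, y0, hNS hy0, z0, hNS hz0, ?_, fun _ => Or.inl rfl,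
        fun _ => Or.inr rfl, fun k => ?_⟩
      · rintro rfl
        exact hzd0 hyd0
      · apply cls_le_of f (a + b) S y0 z0 k (hf' k)
        right
        right
        have h3 := hf' k
        have h4 : (S.filter (fun z => f z = k)).card ≠ (a + b) + 1 := fun h5 => h2 ⟨k, h5⟩
        omega

/-- Removing two distinct elements. -/
theorem card_erase2 (S : Finset V) (x x' : V) (hx : x ∈ S) (hx' : x' ∈ S) (hne : x ≠ x') :
    ((S.erase x).erase x').card = S.card - 2 := by
  rw [card_erase_of_mem (mem_erase.mpr ⟨hne.symm, hx'⟩), card_erase_of_mem hx]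
  omega

end

section

variable {V : Type} [DecidableEq V] {p : ℕ}

/-- The sums of half of a balanced set. -/
theorem sums_bal (hp : p.Prime) (f : V → ZMod p) :
    ∀ (a : ℕ) (S : Finset V), S.card = 2 * a →
      (∀ k, (S.filter (fun z => f z = k)).card ≤ a) →
      ∃ R : Finset (ZMod p), min p (a + 1) ≤ R.card ∧
        ∀ t ∈ R, ∃ A ⊆ S, A.card = a ∧ ∑ x ∈ A, f x = t := by
  intro a
  induction a with
  | zero =>
    intro S hS hf
    refine ⟨{0}, ?_, ?_⟩
    · rw [card_singleton]
      exact min_le_right _ _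
    · intro t ht
      rw [mem_singleton] at ht
      exact ⟨∅, empty_subset _, rfl, by rw [ht, sum_empty]⟩
  | succ a ih =>
    intro S hS hf
    obtain ⟨x, hx⟩ : S.Nonempty := card_pos.mp (by omega)
    obtain ⟨x', hx', hne, hbal⟩ := half_pair f a S hS hf x hx
    have hxx' : x ≠ x' := fun h => hne (by rw [h])
    have hcard : ((S.erase x).erase x').card = 2 * a := by
      rw [card_erase2 S x x' hx hx' hxx', hS]
      omega
    obtain ⟨R, hR, hRs⟩ := ih _ hcard hbal
    refine ⟨R + {f x, f x'}, ?_, ?_⟩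
    · have h1 := cd_step hp R {f x, f x'} (a + 1) 2 hR (by omega)
        (by rw [card_pair hne.symm]) (by omega)
      have h2 : a + 1 + 2 - 1 = a + 1 + 1 := by omega
      rwa [h2] at h1
    · intro t ht
      rw [mem_add] at ht
      obtain ⟨r, hr, s, hs, rfl⟩ := ht
      obtain ⟨A, hAS, hAc, hAs⟩ := hRs r hr
      have hA : ∀ z ∈ A, z ≠ x ∧ z ≠ x' ∧ z ∈ S := by
        intro z hz
        have h1 := hAS hz
        rw [mem_erase, mem_erase] at h1
        exact ⟨h1.2.1, h1.1, h1.2.2⟩
      obtain ⟨w, hw, hwS, hwA⟩ : ∃ w, f w = s ∧ w ∈ S ∧ w ∉ A := by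
        rw [mem_insert, mem_singleton] at hs
        rcases hs with hs | hs
        · exact ⟨x, hs.symm, hx, fun h => (hA x h).1 rfl⟩
        · exact ⟨x', hs.symm, hx', fun h => (hA x' h).2.1 rfl⟩
      refine ⟨insert w A, ?_, ?_, ?_⟩
      · intro z hz
        rw [mem_insert] at hz
        rcases hz with rfl | hz
        · exact hwS
        · exact (hA z hz).2.2
      · rw [card_insert_of_notMem hwA, hAc]
      · rw [sum_insert hwA, hAs, hw, add_comm]

/-- The sums of the leaves of a double star. -/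
theorem sums_pairs (hp : p.Prime) (f g : V → ZMod p) (a : ℕ) (ha : 1 ≤ a) :
    ∀ (b : ℕ) (N S : Finset V), 2 * (a + b) ≤ N.card → S.card = 2 * (a + b) →
      (∀ k, (S.filter (fun z => f z = k)).card ≤ a + b) →
      (∀ d, b ≤ (N.filter (fun z => g z ≠ d)).card) →
      ∃ R : Finset (ZMod p), min p (a + b + 1) ≤ R.card ∧
        ∀ t ∈ R, ∃ A ⊆ S, ∃ B ⊆ N, Disjoint A B ∧ A.card = a ∧ B.card = b ∧
          ∑ x ∈ A, f x + ∑ y ∈ B, g y = t := by
  intro b
  induction b with
  | zero =>
    intro N S _ hS hf _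
    obtain ⟨R, hR, hRs⟩ := sums_bal hp f a S hS hf
    refine ⟨R, hR, fun t ht => ?_⟩
    obtain ⟨A, hAS, hAc, hAs⟩ := hRs t ht
    exact ⟨A, hAS, ∅, empty_subset _, disjoint_empty_right _, hAc, rfl, by
      rw [sum_empty, add_zero, hAs]⟩
  | succ b ih =>
    intro N S hN hS hf hg
    obtain ⟨y, hy, y', hy', hyy', hg', x, hx, x', hx', hxx', hyx, hyx', hbal⟩ :=
      step f g a b ha N S hN hS hf hg
    have hyne : y ≠ y' := fun h => hyy' (by rw [h])
    have hcS : ((S.erase x).erase x').card = 2 * (a + b) := by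
      rw [card_erase2 S x x' hx hx' hxx', hS]
      omega
    have hcN : 2 * (a + b) ≤ ((N.erase y).erase y').card := by
      rw [card_erase2 N y y' hy hy' hyne]
      omega
    obtain ⟨R, hR, hRs⟩ := ih _ _ hcN hcS hbal hg'
    refine ⟨R + {g y, g y'}, ?_, ?_⟩
    · have h1 := cd_step hp R {g y, g y'} (a + b + 1) 2 hR (by omega)
        (by rw [card_pair hyy']) (by omega)
      have h2 : a + b + 1 + 2 - 1 = a + (b + 1) + 1 := by omega
      rwa [h2] at h1
    · intro t ht
      rw [mem_add] at ht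
      obtain ⟨r, hr, s, hs, rfl⟩ := ht
      obtain ⟨A, hAS, B, hBN, hAB, hAc, hBc, hABs⟩ := hRs r hr
      have hA : ∀ z ∈ A, z ≠ x ∧ z ≠ x' ∧ z ∈ S := by
        intro z hz
        have h1 := hAS hz
        rw [mem_erase, mem_erase] at h1
        exact ⟨h1.2.1, h1.1, h1.2.2⟩
      have hB : ∀ z ∈ B, z ≠ y ∧ z ≠ y' ∧ z ∈ N := by
        intro z hz
        have h1 := hBN hz
        rw [mem_erase, mem_erase] at h1
        exact ⟨h1.2.1, h1.1, h1.2.2⟩
      obtain ⟨w, hw, hwN, hwB, hwA⟩ : ∃ w, g w = s ∧ w ∈ N ∧ w ∉ B ∧ w ∉ A := by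
        rw [mem_insert, mem_singleton] at hs
        rcases hs with hs | hs
        · refine ⟨y, hs.symm, hy, fun h => (hB y h).1 rfl, fun h => ?_⟩
          have h1 := hA y h
          rcases hyx h1.2.2 with h2 | h2
          · exact h1.1 h2
          · exact h1.2.1 h2
        · refine ⟨y', hs.symm, hy', fun h => (hB y' h).2.1 rfl, fun h => ?_⟩
          have h1 := hA y' h
          rcases hyx' h1.2.2 with h2 | h2
          · exact h1.1 h2
          · exact h1.2.1 h2
      refine ⟨A, fun z hz => (hA z hz).2.2, insert w B, ?_, ?_, hAc, ?_, ?_⟩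
      · intro z hz
        rw [mem_insert] at hz
        rcases hz with rfl | hz
        · exact hwN
        · exact (hB z hz).2.2
      · rw [disjoint_insert_right]
        exact ⟨hwA, hAB⟩
      · rw [card_insert_of_notMem hwB, hBc]
      · rw [sum_insert hwB, hw, ← hABs]
        ring

/-- All sums of the leaves of a double star. -/
theorem all_pairs (hp : p.Prime) (f g : V → ZMod p) (a b : ℕ) (ha : 1 ≤ a) (hab : p ≤ a + b + 1)
    (N S : Finset V) (hN : 2 * (a + b) ≤ N.card) (hS : S.card = 2 * (a + b))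
    (hf : ∀ k, (S.filter (fun z => f z = k)).card ≤ a + b)
    (hg : ∀ d, b ≤ (N.filter (fun z => g z ≠ d)).card) (t : ZMod p) :
    ∃ A ⊆ S, ∃ B ⊆ N, Disjoint A B ∧ A.card = a ∧ B.card = b ∧
      ∑ x ∈ A, f x + ∑ y ∈ B, g y = t := by
  have : NeZero p := ⟨hp.ne_zero⟩
  obtain ⟨R, hR, hRs⟩ := sums_pairs hp f g a ha b N S hN hS hf hg
  rw [min_eq_left hab] at hR
  have h1 : R = univ := by
    rw [← card_eq_iff_eq_univ, ZMod.card]
    apply le_antisymm _ hR
    calc R.card ≤ (univ : Finset (ZMod p)).card := card_le_univ R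
      _ = p := by rw [card_univ, ZMod.card]
  exact hRs t (by rw [h1]; exact mem_univ t)

end

end Pool.Agent.Helper99.D3
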