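import Pool.Agent.Helper99.D3.Pairs

/-!
A weighted theorem of Erdős, Ginzburg and Ziv (`MP_98699e_co`, `DiameterThree`).
-/

set_option autoImplicit false

namespace Pool.Agent.Helper99.D3

open Finset
open scoped Pointwise

section

variable {V C : Type} [DecidableEq V] [DecidableEq C]

/-- A set with distinct colours, meeting all the full colour classes. -/
theorem split (f : V → C) (a : ℕ) (M : Finset V) (hM : a + 1 ≤ M.card)
    (hf : ∀ k, (M.filter (fun z => f z = k)).card ≤ a + 1) :
    ∃ Y ⊆ M, Y.Nonempty ∧ (∀ x ∈ Y, ∀ y ∈ Y, f x = f y → x = y) ∧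
      (∀ k, ((M \ Y).filter (fun z => f z = k)).card ≤ a) ∧ a ≤ (M \ Y).card := by
  classical
  by_cases h : ∃ κ, (M.filter (fun z => f z = κ)).card = a + 1
  · obtain ⟨κ, hκ⟩ := h
    have hch : ∀ k : C, ∃ x : V, (M.filter (fun z => f z = k)).card = a + 1 →
        x ∈ M ∧ f x = k := by
      intro k
      by_cases h1 : (M.filter (fun z => f z = k)).card = a + 1
      · obtain ⟨x, hx⟩ : (M.filter (fun z => f z = k)).Nonempty := card_pos.mp (by omega)
        exact ⟨x, fun _ => mem_filter.mp hx⟩
      · obtain ⟨x, hx⟩ : M.Nonempty := card_pos.mp (by omega)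
        exact ⟨x, fun h2 => absurd h2 h1⟩
    choose e he using hch
    set F := (M.image f).filter (fun k => (M.filter (fun z => f z = k)).card = a + 1) with hF
    have hFmem : ∀ k, k ∈ F ↔ (M.filter (fun z => f z = k)).card = a + 1 := by
      intro k
      rw [hF, mem_filter]
      constructor
      · exact fun h1 => h1.2
      · intro h1
        refine ⟨?_, h1⟩
        rw [mem_image]
        exact ⟨e k, (he k h1).1, (he k h1).2⟩
    have hYM : F.image e ⊆ M := by
      intro z hz
      rw [mem_image] at hz
      obtain ⟨k, hk, rfl⟩ := hz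
      exact (he k ((hFmem k).mp hk)).1
    have hYf : ∀ z ∈ F.image e, f z ∈ F ∧ e (f z) = z := by
      intro z hz
      rw [mem_image] at hz
      obtain ⟨k, hk, rfl⟩ := hz
      rw [(he k ((hFmem k).mp hk)).2]
      exact ⟨hk, rfl⟩
    have heY : ∀ k, k ∈ F → e k ∈ F.image e := fun k hk => mem_image_of_mem e hk
    refine ⟨F.image e, hYM, ⟨e κ, heY κ ((hFmem κ).mpr hκ)⟩, ?_, ?_, ?_⟩
    · intro x hx y hy hxy
      rw [← (hYf x hx).2, ← (hYf y hy).2, hxy]
    · intro k
      by_cases hk : (M.filter (fun z => f z = k)).card = a + 1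
      · have h1 : (M \ F.image e).filter (fun z => f z = k) ⊆
            (M.filter (fun z => f z = k)).erase (e k) := by
          intro z hz
          rw [mem_filter, mem_sdiff] at hz
          rw [mem_erase, mem_filter]
          refine ⟨?_, hz.1.1, hz.2⟩
          rintro rfl
          exact hz.1.2 (heY k ((hFmem k).mpr hk))
        have h2 := card_le_card h1
        rw [card_erase_of_mem (mem_filter.mpr (he k hk)), hk] at h2
        omega
      · have h1 : (M \ F.image e).filter (fun z => f z = k) ⊆
            M.filter (fun z => f z = k) := filter_subset_filter _ sdiff_subset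
        have h2 := card_le_card h1
        have h3 := hf k
        omega
    · have h1 : (M.filter (fun z => f z = κ)).erase (e κ) ⊆ M \ F.image e := by
        intro z hz
        rw [mem_erase, mem_filter] at hz
        rw [mem_sdiff]
        refine ⟨hz.2.1, fun h2 => hz.1 ?_⟩
        rw [← (hYf z h2).2, hz.2.2]
      have h2 := card_le_card h1
      rw [card_erase_of_mem (mem_filter.mpr (he κ hκ)), hκ] at h2
      omega
  · obtain ⟨x, hx⟩ : M.Nonempty := card_pos.mp (by omega)
    refine ⟨{x}, singleton_subset_iff.mpr hx, singleton_nonempty x, ?_, ?_, ?_⟩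
    · intro y hy z hz _
      rw [mem_singleton] at hy hz
      rw [hy, hz]
    · intro k
      have h1 : (M \ {x}).filter (fun z => f z = k) ⊆ M.filter (fun z => f z = k) :=
        filter_subset_filter _ sdiff_subset
      have h2 := card_le_card h1
      have h3 := hf k
      have h4 : (M.filter (fun z => f z = k)).card ≠ a + 1 := fun h5 => h ⟨k, h5⟩
      omega
    · rw [card_sdiff_of_subset (singleton_subset_iff.mpr hx), card_singleton]
      omega

end

section

variable {V : Type} [DecidableEq V] {p : ℕ}

/-- The sums of `a` elements, if the colour classes have at most `a` elements. -/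
theorem sums_sel (hp : p.Prime) (f : V → ZMod p) :
    ∀ (a : ℕ) (M : Finset V), a ≤ M.card →
      (∀ k, (M.filter (fun z => f z = k)).card ≤ a) →
      ∃ R : Finset (ZMod p), min p (M.card - a + 1) ≤ R.card ∧
        ∀ t ∈ R, ∃ A ⊆ M, A.card = a ∧ ∑ x ∈ A, f x = t := by
  intro a
  induction a with
  | zero =>
    intro M _ hf
    have hM : M = ∅ := by
      rw [eq_empty_iff_forall_notMem]
      intro x hx
      have h1 : 0 < (M.filter (fun z => f z = f x)).card :=
        card_pos.mpr ⟨x, mem_filter.mpr ⟨hx, rfl⟩⟩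
      have h2 := hf (f x)
      omega
    refine ⟨{0}, ?_, ?_⟩
    · rw [hM, card_singleton, card_empty]
      exact min_le_right _ _
    · intro t ht
      rw [mem_singleton] at ht
      exact ⟨∅, empty_subset _, rfl, by rw [ht, sum_empty]⟩
  | succ a ih =>
    intro M hM hf
    obtain ⟨Y, hYM, hYne, hinj, hcl, hcard⟩ := split f a M hM hf
    obtain ⟨R, hR, hRs⟩ := ih (M \ Y) hcard hcl
    have hYpos : 1 ≤ Y.card := card_pos.mpr hYne
    have hsd : (M \ Y).card + Y.card = M.card := by
      rw [card_sdiff_of_subset hYM]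
      have := card_le_card hYM
      omega
    refine ⟨R + Y.image f, ?_, ?_⟩
    · have h0 : (Y.image f).card = Y.card := card_image_of_injOn (fun x hx y hy h =>
        hinj x (mem_coe.mp hx) y (mem_coe.mp hy) h)
      have h1 := cd_step hp R (Y.image f) ((M \ Y).card - a + 1) Y.card hR (by omega)
        (by rw [h0]) hYpos
      have h2 : (M \ Y).card - a + 1 + Y.card - 1 = M.card - (a + 1) + 1 := by omega
      rwa [h2] at h1
    · intro t ht
      rw [mem_add] at ht
      obtain ⟨r, hr, s, hs, rfl⟩ := ht
      obtain ⟨A, hAM, hAc, hAs⟩ := hRs r hr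
      rw [mem_image] at hs
      obtain ⟨w, hw, rfl⟩ := hs
      have hwA : w ∉ A := fun h => (mem_sdiff.mp (hAM h)).2 hw
      refine ⟨insert w A, ?_, ?_, ?_⟩
      · intro z hz
        rw [mem_insert] at hz
        rcases hz with rfl | hz
        · exact hYM hw
        · exact (mem_sdiff.mp (hAM hz)).1
      · rw [card_insert_of_notMem hwA, hAc]
      · rw [sum_insert hwA, hAs, add_comm]

/-- One element with a weight and `a` elements without: all sums, if there are `p + a` elements
and each colour appears at most `a + 1` times. -/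
theorem wegz (hp : p.Prime) (f : V → ZMod p) (w : ZMod p) (hw : w ≠ 0) (a : ℕ) (M : Finset V)
    (hM : p + a ≤ M.card) (hf : ∀ k, (M.filter (fun z => f z = k)).card ≤ a + 1) (t : ZMod p) :
    ∃ v ∈ M, ∃ A ⊆ M.erase v, A.card = a ∧ w * f v + ∑ x ∈ A, f x = t := by
  have : Fact p.Prime := ⟨hp⟩
  have hp1 := hp.pos
  obtain ⟨Y, hYM, hYne, hinj, hcl, hcard⟩ := split f a M (by omega) hf
  obtain ⟨R, hR, hRs⟩ := sums_sel hp f a (M \ Y) hcard hcl
  have hYpos : 1 ≤ Y.card := card_pos.mpr hYne
  have hsd : (M \ Y).card + Y.card = M.card := by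
    rw [card_sdiff_of_subset hYM]
    have := card_le_card hYM
    omega
  have h0 : (Y.image (fun x => w * f x)).card = Y.card := card_image_of_injOn (fun x hx y hy h =>
    hinj x (mem_coe.mp hx) y (mem_coe.mp hy) (mul_left_cancel₀ hw h))
  have h1 := cd_step hp R (Y.image (fun x => w * f x)) ((M \ Y).card - a + 1) Y.card hR
    (by omega) (by rw [h0]) hYpos
  have h2 : p ≤ (M \ Y).card - a + 1 + Y.card - 1 := by omega
  rw [min_eq_left h2] at h1
  have h3 : R + Y.image (fun x => w * f x) = univ := by
    rw [← card_eq_iff_eq_univ, ZMod.card]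
    apply le_antisymm _ h1
    calc (R + Y.image (fun x => w * f x)).card ≤ (univ : Finset (ZMod p)).card :=
          card_le_univ _
      _ = p := by rw [card_univ, ZMod.card]
  have ht : t ∈ R + Y.image (fun x => w * f x) := by
    rw [h3]
    exact mem_univ t
  rw [mem_add] at ht
  obtain ⟨r, hr, s, hs, rfl⟩ := ht
  obtain ⟨A, hAM, hAc, hAs⟩ := hRs r hr
  rw [mem_image] at hs
  obtain ⟨v, hv, rfl⟩ := hs
  refine ⟨v, hYM hv, A, ?_, hAc, by rw [hAs, add_comm]⟩
  intro z hz
  have h4 := mem_sdiff.mp (hAM hz)
  rw [mem_erase]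
  refine ⟨?_, h4.1⟩
  rintro rfl
  exact h4.2 hv

end

end Pool.Agent.Helper99.D3
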